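import Pool.Agent.X297.LO.Stm

/-! LIFT: backup of the part LO_LIFT of the project of helper297 (MP_218893_pr). -/

set_option autoImplicit false

namespace Pool.Agent.X303.LO

open Pool.Agent.X297.LO

variable {r L : ℕ}

/-- the values of the product set -/
def gg (N : ℕ) (s : Fin r → ℤ) (p : Fin r × Fin L) : ℤ := s p.1 + N * ((p.2 : ℕ) : ℤ)

theorem cnt_eq (N : ℕ) (s : Fin r → ℤ) (a b c k : ℤ) :
    cnt (gg (L := L) N s) a b c k = ∑ q : Fin r × Fin r × Fin r,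
      Nat.card {z : Fin L × Fin L × Fin L // (a * s q.1 + b * s q.2.1 + c * s q.2.2) +
        N * (a * ((z.1 : ℕ) : ℤ) + b * ((z.2.1 : ℕ) : ℤ) + c * ((z.2.2 : ℕ) : ℤ)) = k} := by
  unfold cnt
  rw [← Nat.card_sigma]
  refine Nat.card_congr
    { toFun := fun p => ⟨(p.1.1.1, p.1.2.1.1, p.1.2.2.1), ⟨(p.1.1.2, p.1.2.1.2, p.1.2.2.2), ?_⟩⟩
      invFun := fun σ => ⟨((σ.1.1, σ.2.1.1), (σ.1.2.1, σ.2.1.2.1), (σ.1.2.2, σ.2.1.2.2)), ?_⟩
      left_inv := ?_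
      right_inv := ?_ }
  · have h := p.2
    unfold gg at h
    simp only [smul_eq_mul] at h
    refine Eq.trans ?_ h
    dsimp only
    ring
  · have h := σ.2.2
    unfold gg
    simp only [smul_eq_mul]
    refine Eq.trans ?_ h
    ring
  · rintro ⟨⟨⟨_, _⟩, ⟨_, _⟩, ⟨_, _⟩⟩, _⟩
    rfl
  · rintro ⟨⟨_, _, _⟩, ⟨⟨_, _, _⟩, _⟩⟩
    rfl

theorem upper (h1 : S_ZUP) {N M m : ℕ} (hN : 0 < N) (s : Fin r → ℤ) (k : ℤ)
    (hM : Nat.card {p : Fin r × Fin r × Fin r // (N : ℤ) ∣ s p.1 - s p.2.1 + s p.2.2 - k} ≤ M) :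
    cnt (gg (L := 2 * m) N s) 1 (-1) 1 k ≤ M * (3 * m ^ 2) := by
  classical
  rw [cnt_eq]
  have h2 : ∀ q : Fin r × Fin r × Fin r,
      Nat.card {z : Fin (2 * m) × Fin (2 * m) × Fin (2 * m) //
        (1 * s q.1 + (-1) * s q.2.1 + 1 * s q.2.2) +
        N * (1 * ((z.1 : ℕ) : ℤ) + (-1) * ((z.2.1 : ℕ) : ℤ) + 1 * ((z.2.2 : ℕ) : ℤ)) = k} ≤
      if (N : ℤ) ∣ s q.1 - s q.2.1 + s q.2.2 - k then 3 * m ^ 2 else 0 := by
    intro q
    split_ifs with h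
    · obtain ⟨e, he⟩ := h
      refine le_trans (le_of_eq ?_) (h1 m (-e))
      refine Nat.card_congr (Equiv.subtypeEquivRight fun z => ?_)
      constructor
      · intro h3
        have h4 : (N : ℤ) * (((z.1 : ℕ) : ℤ) - ((z.2.1 : ℕ) : ℤ) + ((z.2.2 : ℕ) : ℤ)) =
            N * (-e) := by linarith
        exact mul_left_cancel₀ (by exact_mod_cast hN.ne') h4
      · intro h3
        have h4 : (N : ℤ) * (((z.1 : ℕ) : ℤ) - ((z.2.1 : ℕ) : ℤ) + ((z.2.2 : ℕ) : ℤ)) =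
            N * (-e) := by rw [h3]
        linarith
    · refine le_of_eq ?_
      rw [Nat.card_eq_zero]
      left
      refine ⟨fun z => h ⟨-(((z.1.1 : ℕ) : ℤ) - ((z.1.2.1 : ℕ) : ℤ) + ((z.1.2.2 : ℕ) : ℤ)), ?_⟩⟩
      have h3 := z.2
      linarith
  refine (Finset.sum_le_sum fun q _ => h2 q).trans ?_
  rw [← Finset.sum_filter, Finset.sum_const, smul_eq_mul]
  refine Nat.mul_le_mul_right _ ?_
  rw [Nat.card_eq_fintype_card, Fintype.card_subtype] at hM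
  exact hM

theorem lower (h1 : S_ZLO) {N A m E : ℕ} (hN : 0 < N) (s : Fin r → ℤ) (x : ℤ)
    (hA : A ≤ Nat.card {p : Fin r × Fin r × Fin r // (N : ℤ) ∣ s p.1 - s p.2.1 + 2 * s p.2.2 - x})
    (hE : ∀ q : Fin r × Fin r × Fin r, |s q.1 - s q.2.1 + 2 * s q.2.2 - x| ≤ E)
    (hm : 0 ≤ 2 * (m : ℤ) ^ 2 - 4 * m * (E + 2)) :
    (A : ℤ) * (2 * (m : ℤ) ^ 2 - 4 * m * (E + 2)) ≤
      cnt (gg (L := 2 * m) N s) 1 (-1) 2 (x + N * (2 * m)) := by
  classical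
  rw [cnt_eq, Nat.cast_sum]
  have h2 : ∀ q : Fin r × Fin r × Fin r,
      (if (N : ℤ) ∣ s q.1 - s q.2.1 + 2 * s q.2.2 - x then
        (2 * (m : ℤ) ^ 2 - 4 * m * (E + 2)) else 0) ≤
      ((Nat.card {z : Fin (2 * m) × Fin (2 * m) × Fin (2 * m) //
        (1 * s q.1 + (-1) * s q.2.1 + 2 * s q.2.2) +
        N * (1 * ((z.1 : ℕ) : ℤ) + (-1) * ((z.2.1 : ℕ) : ℤ) + 2 * ((z.2.2 : ℕ) : ℤ)) =
          x + N * (2 * m)} : ℕ) : ℤ) := by
    intro q
    split_ifs with h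
    · obtain ⟨e, he⟩ := h
      have h3 : |-e| ≤ (E : ℤ) := by
        have h4 := hE q
        rw [he, abs_mul, Nat.abs_cast] at h4
        rw [abs_neg]
        have h5 : (1 : ℤ) ≤ N := by exact_mod_cast hN
        have h6 := abs_nonneg e
        nlinarith
      refine (h1 m E (-e) h3).trans (le_of_eq ?_)
      congr 1
      refine Nat.card_congr (Equiv.subtypeEquivRight fun z => ?_)
      constructor
      · intro h3
        have h4 : (N : ℤ) * (((z.1 : ℕ) : ℤ) - ((z.2.1 : ℕ) : ℤ) + 2 * ((z.2.2 : ℕ) : ℤ)) =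
            N * (2 * m + -e) := by rw [h3]
        linarith
      · intro h3
        have h4 : (N : ℤ) * (((z.1 : ℕ) : ℤ) - ((z.2.1 : ℕ) : ℤ) + 2 * ((z.2.2 : ℕ) : ℤ)) =
            N * (2 * m + -e) := by linarith
        exact mul_left_cancel₀ (by exact_mod_cast hN.ne') h4
    · exact Int.natCast_nonneg _
  refine le_trans ?_ (Finset.sum_le_sum fun q _ => h2 q)
  rw [← Finset.sum_filter, Finset.sum_const, nsmul_eq_mul]
  refine mul_le_mul_of_nonneg_right ?_ hm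
  rw [Nat.card_eq_fintype_card, Fintype.card_subtype] at hA
  exact_mod_cast hA

theorem t_LIFT : S_LIFT := by
  intro hU hL N A M hN hMA hG
  obtain ⟨r, s, hM, x, hA⟩ := hG
  have hA0 : 0 < A := by omega
  have hr : 0 < r := by
    rcases Nat.eq_zero_or_pos r with h | h
    · subst h
      have h0 : Nat.card {p : Fin 0 × Fin 0 × Fin 0 //
          (N : ℤ) ∣ s p.1 - s p.2.1 + 2 * s p.2.2 - x} = 0 := by
        rw [Nat.card_eq_zero]
        left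
        exact ⟨fun p => Fin.elim0 p.1.1⟩
      omega
    · exact h
  let E : ℕ := ∑ q : Fin r × Fin r × Fin r, (s q.1 - s q.2.1 + 2 * s q.2.2 - x).natAbs
  have hE : ∀ q : Fin r × Fin r × Fin r, |s q.1 - s q.2.1 + 2 * s q.2.2 - x| ≤ (E : ℤ) := by
    intro q
    rw [Int.abs_eq_natAbs]
    exact_mod_cast Finset.single_le_sum
      (f := fun q : Fin r × Fin r × Fin r => (s q.1 - s q.2.1 + 2 * s q.2.2 - x).natAbs)
      (fun _ _ => Nat.zero_le _) (Finset.mem_univ q)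
  let m : ℕ := 4 * A * (E + 2) + 1
  have hm1 : (m : ℤ) = 4 * A * (E + 2) + 1 := by
    simp only [m]
    push_cast
    ring
  have hA1 : (1 : ℤ) ≤ A := by exact_mod_cast hA0
  have hE0 : (0 : ℤ) ≤ E := Int.natCast_nonneg _
  have hm0 : (0 : ℤ) < m := by
    rw [hm1]
    positivity
  have hm2 : 4 * ((E : ℤ) + 2) ≤ m := by
    rw [hm1]
    nlinarith
  have hm : 0 ≤ 2 * (m : ℤ) ^ 2 - 4 * m * (E + 2) := by nlinarith
  refine ⟨Fin r × Fin (2 * m), inferInstance, ⟨(⟨0, hr⟩, ⟨0, ?_⟩)⟩, gg N s, x + N * (2 * m),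
    fun k => ?_⟩
  · have : 0 < m := by exact_mod_cast hm0
    omega
  · have h1 := upper (m := m) hU hN s k (hM k)
    have h2 := lower (m := m) hL hN s x hA hE hm
    have h3 : ((M * (3 * m ^ 2) : ℕ) : ℤ) < (A : ℤ) * (2 * (m : ℤ) ^ 2 - 4 * m * (E + 2)) := by
      push_cast
      have h4 : (3 * (M : ℤ)) + 1 ≤ 2 * A := by exact_mod_cast hMA
      have h5 : (A : ℤ) * (2 * (m : ℤ) ^ 2 - 4 * m * (E + 2)) - M * (3 * m ^ 2) =
          (2 * A - 3 * M - 1) * m ^ 2 + m * (m - 4 * A * (E + 2)) := by ring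
      have h6 : (m : ℤ) - 4 * A * (E + 2) = 1 := by rw [hm1]; ring
      rw [h6] at h5
      have h7 : 0 ≤ (2 * (A : ℤ) - 3 * M - 1) * m ^ 2 :=
        mul_nonneg (by linarith) (sq_nonneg _)
      linarith
    have h8 : ((cnt (gg (L := 2 * m) N s) 1 (-1) 1 k : ℕ) : ℤ) ≤ ((M * (3 * m ^ 2) : ℕ) : ℤ) := by
      exact_mod_cast h1
    exact_mod_cast lt_of_le_of_lt h8 (lt_of_lt_of_le h3 h2)

end Pool.Agent.X303.LO
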